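import Mathlib
import Pool.Agent.Q92.BX.Bal

/-!
# MP_d3ee63_an, Q1: a continuum of balanced beta-expansions

For every non-integer `β > 2`, almost every point has a continuum of balanced expansions.
-/

open Set Filter MeasureTheory Topology

namespace Pool.Agent.Results.MP_d3ee63_an.Balanced

/-- `ε` (with `ε i` the digit number `i + 1`) is a `β`-expansion of `x` over the alphabet
`{0, …, ⌊β⌋}`. -/
def IsExpansion (β x : ℝ) (ε : ℕ → Fin (⌊β⌋₊ + 1)) : Prop :=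
  HasSum (fun i : ℕ => ((ε i : ℕ) : ℝ) / β ^ (i + 1)) x

/-- The number of occurrences of the digit `k` among the first `n` digits of `ε`. -/
noncomputable def count {β : ℝ} (k : Fin (⌊β⌋₊ + 1)) (ε : ℕ → Fin (⌊β⌋₊ + 1)) (n : ℕ) : ℕ :=
  ((Finset.range n).filter fun i => ε i = k).card

/-- The digit `k` has frequency `f` in `ε`. -/
def HasFreq {β : ℝ} (k : Fin (⌊β⌋₊ + 1)) (ε : ℕ → Fin (⌊β⌋₊ + 1)) (f : ℝ) : Prop :=
  Tendsto (fun n : ℕ => (count k ε n : ℝ) / n) atTop (𝓝 f)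

/-- The balanced `β`-expansions of `x`: all frequencies exist, and the digits `k` and `⌊β⌋ - k`
(that is, `Fin.rev k`) have the same frequency. -/
def BalancedExpansions (β x : ℝ) : Set (ℕ → Fin (⌊β⌋₊ + 1)) :=
  {ε | IsExpansion β x ε ∧ ∃ f : Fin (⌊β⌋₊ + 1) → ℝ, (∀ k, HasFreq k ε (f k)) ∧
    ∀ k, f k = f (Fin.rev k)}

/-- For every real `β > 2` (in particular every non-integer one) there is one symmetric frequency
vector `p` such that almost every `x ∈ [0, ⌊β⌋ / (β - 1)]` has a continuum of expansions with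
digit frequencies exactly `p`; so almost every `x` has a continuum of balanced expansions. -/
theorem result (β : ℝ) (hβ : 2 < β) :
    (∀ᵐ x ∂(volume.restrict (Icc (0 : ℝ) ((⌊β⌋₊ : ℝ) / (β - 1)))),
      Cardinal.mk (BalancedExpansions β x) = Cardinal.continuum) ∧
    ∃ p : Fin (⌊β⌋₊ + 1) → ℝ, (∀ k, p k = p (Fin.rev k)) ∧
      ∀ᵐ x ∂(volume.restrict (Icc (0 : ℝ) ((⌊β⌋₊ : ℝ) / (β - 1)))),
        Cardinal.mk {ε : ℕ → Fin (⌊β⌋₊ + 1) // IsExpansion β x ε ∧ ∀ k, HasFreq k ε (p k)} =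
          Cardinal.continuum := by
  have hm1 : 1 ≤ ⌊β⌋₊ := Nat.one_le_floor_iff β |>.2 (by linarith)
  have hm2 : (⌊β⌋₊ : ℝ) ≤ β := Nat.floor_le (by linarith)
  obtain ⟨p, hsym, hae⟩ := Q92.BX.balanced hβ (Nat.lt_floor_add_one β) hm2 hm1
  have hle : ∀ S : Set (ℕ → Fin (⌊β⌋₊ + 1)), Cardinal.mk S ≤ Cardinal.continuum := by
    intro S
    refine (Cardinal.mk_set_le _).trans ?_
    rw [Cardinal.mk_arrow]
    simp only [Cardinal.mk_fintype, Fintype.card_fin, Cardinal.lift_natCast, Cardinal.mk_nat,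
      Cardinal.lift_aleph0]
    refine (Cardinal.power_le_power_right (c := Cardinal.aleph0)
      (Cardinal.natCast_le_aleph0 (n := ⌊β⌋₊ + 1))).trans ?_
    rw [Cardinal.aleph0_power_aleph0]
  have hconv : ∀ x, Q92.BX.EE β p p x ⊆
      {ε : ℕ → Fin (⌊β⌋₊ + 1) | IsExpansion β x ε ∧ ∀ k, HasFreq k ε (p k)} := by
    rintro x ε ⟨h1, h2⟩
    refine ⟨h1, fun k => ?_⟩
    have hb : IsBoundedUnder (· ≤ ·) atTop (fun n : ℕ => (Q92.BX.cnt k ε n : ℝ) / n) :=
      isBoundedUnder_of ⟨1, Q92.BX.cnt_div_le_one k ε⟩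
    have hb' : IsBoundedUnder (· ≥ ·) atTop (fun n : ℕ => (Q92.BX.cnt k ε n : ℝ) / n) :=
      isBoundedUnder_of ⟨0, Q92.BX.cnt_div_nonneg k ε⟩
    exact tendsto_of_liminf_eq_limsup (h2 k).2 (h2 k).1 hb hb'
  refine ⟨?_, p, hsym, ?_⟩
  · filter_upwards [hae] with x hx
    refine le_antisymm (hle _) ?_
    rw [← hx]
    refine Cardinal.mk_le_mk_of_subset ?_
    intro ε hε
    exact ⟨(hconv x hε).1, p, (hconv x hε).2, hsym⟩
  · filter_upwards [hae] with x hx
    refine le_antisymm (hle _) ?_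
    rw [← hx]
    exact Cardinal.mk_le_mk_of_subset (hconv x)

end Pool.Agent.Results.MP_d3ee63_an.Balanced
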